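import Mathlib
import Pool.Agent.H94.MC.Defs
import Pool.Agent.H94.MC.FiveC

/-!
# MP_7ea545_nt: non-MC integers come from circles through at least five lattice points
-/

namespace Pool.Agent.Results.MP_7ea545_nt.FivePoints

open Pool.Agent.H94.MC

/-- If `n` is not MC then some circle of radius exactly `R_n` (the supremum of the radii of the
`n`-enclosing circles) has fewer than `n` lattice points in its open interior and at least five
lattice points on it, and every closed half plane with its centre on the boundary line contains at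
least `n + 1 - a` of the points on the circle, where `a` is the number of interior points. -/
theorem result (n : ℕ) (hn : ¬ MC n) : ∃ (c : ℝ × ℝ) (R : ℝ),
    IsLUB {r : ℝ | ∃ c' : ℝ × ℝ, IsEnclosing n c' r} R ∧
    (inside c R).ncard < n ∧
    5 ≤ {p : ℤ × ℤ | ((p.1 : ℝ) - c.1) ^ 2 + ((p.2 : ℝ) - c.2) ^ 2 = R ^ 2}.ncard ∧
    ∀ u : ℝ × ℝ, n + 1 ≤ (inside c R).ncard +
      {p : ℤ × ℤ | ((p.1 : ℝ) - c.1) ^ 2 + ((p.2 : ℝ) - c.2) ^ 2 = R ^ 2 ∧
        0 ≤ ((p.1 : ℝ) - c.1) * u.1 + ((p.2 : ℝ) - c.2) * u.2}.ncard :=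
  five n hn

end Pool.Agent.Results.MP_7ea545_nt.FivePoints
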