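import Mathlib
import Pool.Agent.H94.MC.Defs
import Pool.Agent.H94.MC.Final
import Pool.Agent.H94.MC.Count

/-!
# MP_7ea545_nt: integers with a largest enclosing circle in short intervals
-/

namespace Pool.Agent.Results.MP_7ea545_nt.ShortIntervals

open Pool.Agent.H94.MC

open Classical in
/-- For every `ε > 0` and every sufficiently large `n` there is an MC integer in `[n - n ^ ε, n]`,
and at least `n ^ (1 - ε)` integers below `n` are MC. -/
theorem result (ε : ℝ) (hε : 0 < ε) : ∃ N₀ : ℕ, ∀ n : ℕ, N₀ ≤ n →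
    (∃ m : ℕ, MC m ∧ m ≤ n ∧ (n : ℝ) - (m : ℝ) ≤ (n : ℝ) ^ ε) ∧
    (n : ℝ) ^ (1 - ε) ≤ (((Finset.range n).filter (fun m => MC m)).card : ℝ) := by
  obtain ⟨N₁, h1⟩ := short_interval ε hε
  obtain ⟨N₂, h2⟩ := count_lower ε hε
  exact ⟨max N₁ N₂, fun n hn => ⟨h1 n ((le_max_left _ _).trans hn),
    h2 n ((le_max_right _ _).trans hn)⟩⟩

end Pool.Agent.Results.MP_7ea545_nt.ShortIntervals
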